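import Pool.Agent.X99.MC.Fin
import Pool.Agent.H64R2.DD_MWK

/-!
# Mordell curves with positive rank along geometric progressions

`E_b` is the curve `y² = x³ + b`. For every nonzero integer `a` with `rk E_a > 0` there are infinitely
many integers `Q`, neither squares nor cubes, with `rk E_{a Q^i} > 0` for all `i ≥ 0`.

Proof. Take `Q = -27 q²`. As `E_b` and `E_{-27 b}` are 3-isogenous and `E_{b s⁶} = E_b`, the curve
`E_{a Q^i}` is isogenous to `E_a`, `E_{a q²}` or `E_{a q⁴}`, so that a point of infinite order on the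
cubic twists `q x³ = y² - a` and `q² x³ = y² - a` is needed. Such points come from the rational points
`(u, v)` of the surface `(u² - a) (v² - a) = w³`. It contains the pairs of points of `E_a` (then
`q = u² - a` is a cube, which is useless), in particular the diagonal; and it is fibred by the curves
`(u² - a)² = c (v² - a)` of genus one. The curve through the diagonal point `(u₀, u₀)`,
`c = u₀² - a = r³`, is tangent to a parabola at `(u₀, u₀)` to the third order, and the fourth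
intersection is the point with `u = u₀ (5 a - u₀²) / (3 u₀² + a)`. This gives
`q = (u₀⁴ - 18 a u₀² + a²) (3 u₀² + a)` up to cubes. If the point `(r, u₀)` of `E_a` is close to the
origin 3-adically, then `q` is `3` times a cube up to 3-adic units congruent to one, so it is not a
cube; and if it is close to the origin 2-adically, then so are all the points found on the six curves,
which are therefore of infinite order. By the pigeonhole principle every point of infinite order has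
a multiple with both properties.
-/

set_option autoImplicit false

namespace Pool.Agent.Results.MP_cfe824_nt.GeometricProgressions

open WeierstrassCurve WeierstrassCurve.Affine Pool.Agent.X99.MC

/-- the curve `E_b : y² = x³ + b` over `ℚ` -/
def E (b : ℤ) : WeierstrassCurve ℚ := { a₁ := 0, a₂ := 0, a₃ := 0, a₄ := 0, a₆ := (b : ℚ) }

/-- the rank of the Mordell-Weil group `E_b(ℚ)` -/
noncomputable def rk (b : ℤ) : ℕ := Module.finrank ℤ (E b).toAffine.Point

/-- `(a, Q)` is a proper solution: `a ≠ 0`, `Q` is neither a square nor a cube in `ℤ`, and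
`rk E_{a Q^i} > 0` for every `i ≥ 0` -/
def IsProper (a Q : ℤ) : Prop :=
  a ≠ 0 ∧ (¬ ∃ t : ℤ, Q = t ^ 2) ∧ (¬ ∃ t : ℤ, Q = t ^ 3) ∧ ∀ i : ℕ, 0 < rk (a * Q ^ i)

lemma E_eq (b : ℤ) : E b = W (b : ℚ) := rfl

/-- the Mordell-Weil theorem -/
lemma fg {b : ℤ} (hb : b ≠ 0) : Module.Finite ℤ (E b).toAffine.Point := by
  have h := Pool.Agent.H64R2.DDMWK.mwk ℚ 0 b (by
    have : 0 < b ^ 2 := by positivity
    nlinarith)
  have e : Pool.Agent.H925R3.DC.crv ℚ ((0 : ℤ) : ℚ) (b : ℚ) = (E b).toAffine := by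
    rw [Int.cast_zero]
    rfl
  rw [e] at h
  exact Module.Finite.iff_addGroup_fg.2 h

lemma rk_pos_of {b : ℤ} (hb : b ≠ 0) {P : (E b).toAffine.Point}
    (hP : ∀ n : ℕ, n ≠ 0 → n • P ≠ 0) : 0 < rk b := by
  have := fg hb
  unfold rk
  rw [Nat.pos_iff_ne_zero, Ne, Module.finrank_eq_zero_iff]
  intro h
  obtain ⟨n, hn, h1⟩ := h P
  apply hP n.natAbs (Int.natAbs_ne_zero.2 hn)
  rcases Int.natAbs_eq n with h2 | h2
  · rw [h2, natCast_zsmul] at h1
    exact h1
  · rw [h2, neg_smul, natCast_zsmul, neg_eq_zero] at h1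
    exact h1

lemma exists_of_rk {b : ℤ} (h : 0 < rk b) :
    ∃ P : (E b).toAffine.Point, ∀ n : ℕ, n ≠ 0 → n • P ≠ 0 := by
  by_contra hcon
  push Not at hcon
  unfold rk at h
  have h0 : Module.finrank ℤ (E b).toAffine.Point = 0 :=
    Module.finrank_eq_zero_of_rank_eq_zero (rank_eq_zero_iff.2 (fun P => by
      obtain ⟨n, hn, h1⟩ := hcon P
      exact ⟨n, by exact_mod_cast hn, by rw [natCast_zsmul]; exact h1⟩))
  omega

lemma rk_pos_of_good {b : ℤ} (hb : b ≠ 0) (h : Good (b : ℚ)) : 0 < rk b := by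
  obtain ⟨x, y, h1, h2⟩ := h
  have hb' : (b : ℚ) ≠ 0 := by exact_mod_cast hb
  exact rk_pos_of hb (P := Point.some x y (nonsing hb' h1)) (criterion _ h2)

/-- **Theorem.** For every nonzero integer `a` such that `E_a` has positive rank there are infinitely
many integers `Q` such that `(a, Q)` is a proper solution. -/
theorem result (a : ℤ) (ha : a ≠ 0) (hrk : 0 < rk a) : {Q : ℤ | IsProper a Q}.Infinite := by
  obtain ⟨P, hP⟩ := exists_of_rk hrk
  obtain ⟨r, u, hru, hr2, hr3⟩ := exists_near ha (P := P) hP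
  have ha2 : nm 2 (a : ℚ) ≤ 1 := nm_int 2 a
  have ha3 : nm 3 (a : ℚ) ≤ 1 := nm_int 3 a
  set c : ℚ := G a (r ^ 3 + a) * D a (r ^ 3 + a) with hc
  have hc0 : c ≠ 0 := (good_one hru ha2 hr2 1 one_ne_zero).2.2
  -- the integers `q`
  let q : ℕ → ℤ := fun k => c.num * (c.den : ℤ) ^ 2 * ((k : ℤ) + 1) ^ 3
  have hden : (c.den : ℚ) ≠ 0 := by exact_mod_cast c.den_nz
  have hq : ∀ k : ℕ, ((q k : ℤ) : ℚ) = c * ((c.den : ℚ) * (k + 1)) ^ 3 := by
    intro k
    have e : (c.num : ℚ) = c * c.den := by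
      rw [mul_comm]
      exact (Rat.den_mul_eq_num c).symm
    simp only [q]
    push_cast
    rw [e]
    ring
  have hk : ∀ k : ℕ, ((k : ℚ) + 1) ≠ 0 := fun k => by positivity
  have hm : ∀ k : ℕ, ((c.den : ℚ) * (k + 1)) ≠ 0 := fun k => mul_ne_zero hden (hk k)
  have hq0 : ∀ k : ℕ, ((q k : ℤ) : ℚ) ≠ 0 := fun k => by
    rw [hq]
    exact mul_ne_zero hc0 (pow_ne_zero 3 (hm k))
  have hq0' : ∀ k : ℕ, q k ≠ 0 := fun k => by exact_mod_cast hq0 k
  refine Set.infinite_of_injective_forall_mem (f := fun k : ℕ => -27 * q k ^ 2) ?_ ?_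
  · -- the numbers are different
    intro j k hjk
    simp only at hjk
    have h1 : q j ^ 2 = q k ^ 2 := by linarith
    simp only [q, mul_pow] at h1
    have h2 : (c.num ^ 2 * ((c.den : ℤ) ^ 2) ^ 2) ≠ 0 := by
      have h3 : c.num ≠ 0 := Rat.num_ne_zero.2 hc0
      have h4 : (c.den : ℤ) ≠ 0 := by exact_mod_cast c.den_nz
      positivity
    have h5 : (((j : ℤ) + 1) ^ 3) ^ 2 = (((k : ℤ) + 1) ^ 3) ^ 2 := mul_left_cancel₀ h2 h1
    rw [← pow_mul, ← pow_mul] at h5
    have h6 : (j : ℤ) + 1 = (k : ℤ) + 1 :=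
      (pow_left_inj₀ (by positivity) (by positivity) (by norm_num)).1 h5
    have h7 : (j : ℤ) = k := by linarith
    exact_mod_cast h7
  · intro k
    refine ⟨ha, ?_, ?_, ?_⟩
    · -- not a square
      rintro ⟨t, ht⟩
      have h1 : 0 < q k ^ 2 := by
        have := hq0' k
        positivity
      have h2 : 0 ≤ t ^ 2 := sq_nonneg t
      linarith
    · -- not a cube
      rintro ⟨t, ht⟩
      have h1 : (-27 * ((q k : ℤ) : ℚ) ^ 2) = (t : ℚ) ^ 3 := by exact_mod_cast ht
      have h2 : nm 3 (-27 * ((q k : ℤ) : ℚ) ^ 2) = nm 3 (t : ℚ) ^ 3 := by rw [h1, nm_pow]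
      rw [nm_mul, nm_neg, nm_pow, hq k, nm_mul, nm_pow, hc, nm_three_G ha3 hr3] at h2
      have e27 : nm 3 27 = 1 / 27 := by
        have : (27 : ℚ) = 3 ^ 3 := by norm_num
        rw [this, nm_pow, nm_three_three]
        norm_num
      rw [e27] at h2
      have ht0 : (t : ℚ) ≠ 0 := by
        intro h3
        rw [h3] at h1
        have := hq0 k
        have h4 : 0 < ((q k : ℤ) : ℚ) ^ 2 := by positivity
        linarith
      have hr0 : r ≠ 0 := ne_of_nm_pos 3 (lt_trans one_pos hr3)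
      -- sizes are powers of three
      have hz : ∀ {z : ℚ}, z ≠ 0 → ∃ n : ℤ, nm 3 z = (3 : ℝ) ^ n := by
        intro z hz
        obtain ⟨n, hn⟩ := Padic.padicNormE.image (p := 3) (q := (z : ℚ_[3])) (by exact_mod_cast hz)
        refine ⟨-n, ?_⟩
        unfold nm
        rw [hn]
        push_cast
        rfl
      obtain ⟨n₁, e₁⟩ := hz hr0
      obtain ⟨n₂, e₂⟩ := hz (hm k)
      obtain ⟨n₃, e₃⟩ := hz ht0
      rw [e₁, e₂, e₃] at h2
      have hA : (3 : ℝ) ^ (-3 + 2 * (9 * n₁ - 1 + 3 * n₂)) =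
          1 / 27 * (((3 : ℝ) ^ n₁) ^ 9 / 3 * ((3 : ℝ) ^ n₂) ^ 3) ^ 2 := by
        have f1 : (3 : ℝ) ^ (9 * n₁) = ((3 : ℝ) ^ n₁) ^ 9 := by
          rw [mul_comm, zpow_mul]
          norm_cast
        have f2 : (3 : ℝ) ^ (3 * n₂) = ((3 : ℝ) ^ n₂) ^ 3 := by
          rw [mul_comm, zpow_mul]
          norm_cast
        have f3 : (3 : ℝ) ^ (2 * (9 * n₁ - 1 + 3 * n₂)) = ((3 : ℝ) ^ (9 * n₁ - 1 + 3 * n₂)) ^ 2 := by
          rw [mul_comm, zpow_mul]
          norm_cast
        have f4 : (3 : ℝ) ^ (-3 : ℤ) = 1 / 27 := by norm_num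
        rw [zpow_add₀ (by norm_num), f3, zpow_add₀ (by norm_num), zpow_sub₀ (by norm_num), f1, f2,
          zpow_one, f4]
      have h3 : (3 : ℝ) ^ (-3 + 2 * (9 * n₁ - 1 + 3 * n₂)) = (3 : ℝ) ^ (3 * n₃) := by
        rw [hA, h2, mul_comm 3 n₃, zpow_mul]
        norm_cast
      have h4 : -3 + 2 * (9 * n₁ - 1 + 3 * n₂) = 3 * n₃ :=
        zpow_right_injective₀ (by norm_num) (by norm_num) h3
      omega
    · -- positive rank
      intro i
      obtain ⟨g2, g4, -⟩ := good_one hru ha2 hr2 _ (hm k)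
      rw [← hc, ← hq k] at g2 g4
      have g0 : Good (a : ℚ) :=
        ⟨r, u, hru, lt_of_le_of_lt ha2 (one_lt_pow₀ hr2 (by norm_num))⟩
      have g := good_all (hq0 k) g0 g2 g4 i
      refine rk_pos_of_good ?_ (by push_cast; exact g)
      have h1 : -27 * q k ^ 2 ≠ 0 := mul_ne_zero (by norm_num) (pow_ne_zero 2 (hq0' k))
      exact mul_ne_zero ha (pow_ne_zero i h1)

end Pool.Agent.Results.MP_cfe824_nt.GeometricProgressions
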